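import Pool.Agent.Helper86.FS.StartGoals

/-! Project FS (MP_75608d_al), part START: the numbers for E1B. -/

namespace Pool.Agent.Helper49.FS

open Pool.Agent.Helper86.FS Filter

theorem e1n_aux (n : ℕ) (b M t m : ℕ) (hm : 0 < m) (hL : 20000 ≤ Real.log n)
    (hb : (n : ℝ) ^ (31 / 32 : ℝ) ≤ b) (hM : (n : ℝ) ^ (1 / 5 : ℝ) ≤ M)
    (ht : t = ⌊(M : ℝ) * m ^ 2 * b ^ 2 / (n : ℝ) ^ 2 / 40⌋₊) :
    2 * (Real.exp (4 * M * (18 * (m : ℝ) ^ 2 * b ^ 2) / (n : ℝ) ^ 2) * ((M.choose t : ℝ) *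
      (4 * ((m : ℝ) ^ 2 * b * Real.sqrt n) / (n : ℝ) ^ 2) ^ t)) ≤
    Real.exp (-((1 / 200) * ((M : ℝ) * m ^ 2 * b ^ 2 / (n : ℝ) ^ 2) * Real.log n)) := by
  have hn0 : (0 : ℝ) < n := by
    rcases Nat.eq_zero_or_pos n with h | h
    · rw [h] at hL
      norm_num at hL
    · exact_mod_cast h
  obtain ⟨L, hLdef⟩ : ∃ L : ℝ, L = Real.log n := ⟨_, rfl⟩
  have hnL : (n : ℝ) = Real.exp L := by rw [hLdef, Real.exp_log hn0]
  rw [← hLdef] at hL ⊢
  have hm1 : (1 : ℝ) ≤ m := by exact_mod_cast hm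
  have hb' : Real.exp (L * (31 / 32)) ≤ b := by
    rwa [hnL, ← Real.exp_mul] at hb
  have hM' : Real.exp (L * (1 / 5)) ≤ M := by
    rwa [hnL, ← Real.exp_mul] at hM
  have hb0 : (0 : ℝ) < b := lt_of_lt_of_le (Real.exp_pos _) hb'
  have hM0 : (0 : ℝ) < M := lt_of_lt_of_le (Real.exp_pos _) hM'
  have hsq : Real.sqrt n = Real.exp (L / 2) := by
    rw [hnL, Real.sqrt_eq_iff_mul_self_eq (Real.exp_pos _).le (Real.exp_pos _).le, ← Real.exp_add]
    congr 1
    ring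
  obtain ⟨μ, hμ⟩ : ∃ μ : ℝ, μ = (M : ℝ) * m ^ 2 * b ^ 2 / (n : ℝ) ^ 2 := ⟨_, rfl⟩
  rw [← hμ] at ht ⊢
  have hμlb : 1640 ≤ μ := by
    have h1 : Real.exp (L * (1 / 5)) * 1 ^ 2 * Real.exp (L * (31 / 32)) ^ 2 / (n : ℝ) ^ 2 ≤ μ := by
      rw [hμ]
      gcongr
    have h2 : Real.exp (L * (1 / 5)) * 1 ^ 2 * Real.exp (L * (31 / 32)) ^ 2 / (n : ℝ) ^ 2 =
        Real.exp (L * (11 / 80)) := by
      rw [hnL, one_pow, mul_one, ← Real.exp_nat_mul, ← Real.exp_nat_mul, ← Real.exp_add,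
        ← Real.exp_sub]
      congr 1
      push_cast
      ring
    have h3 := Real.add_one_le_exp (L * (11 / 80))
    rw [h2] at h1
    linarith
  have hμ0 : 0 < μ := by linarith
  have ht1 : μ / 41 ≤ t := by
    have h1 := Nat.lt_floor_add_one (μ / 40)
    rw [← ht] at h1
    linarith
  have ht0 : (0 : ℝ) < t := by
    have : 0 < μ / 41 := by positivity
    linarith
  have e1 : 4 * M * (18 * (m : ℝ) ^ 2 * b ^ 2) / (n : ℝ) ^ 2 = 72 * μ := by
    rw [hμ]
    ring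
  rw [e1]
  obtain ⟨q, hq⟩ : ∃ q : ℝ, q = 4 * ((m : ℝ) ^ 2 * b * Real.sqrt n) / (n : ℝ) ^ 2 := ⟨_, rfl⟩
  rw [← hq]
  have hq0 : 0 ≤ q := by
    rw [hq]
    positivity
  -- the binomial coefficient
  have hch : (M.choose t : ℝ) * q ^ t ≤ (Real.exp 1 * (M * q) / t) ^ t := by
    have h1 : (M.choose t : ℝ) ≤ (M : ℝ) ^ t / (t.factorial : ℝ) := Nat.choose_le_pow_div t M
    have h2 : (t : ℝ) ^ t / (t.factorial : ℝ) ≤ Real.exp t :=
      Real.pow_div_factorial_le_exp t ht0.le t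
    have hf : (0 : ℝ) < t.factorial := by exact_mod_cast t.factorial_pos
    calc (M.choose t : ℝ) * q ^ t ≤ (M : ℝ) ^ t / (t.factorial : ℝ) * q ^ t := by gcongr
      _ = (M * q / t) ^ t * ((t : ℝ) ^ t / (t.factorial : ℝ)) := by
        rw [div_pow, mul_pow]
        field_simp
      _ ≤ (M * q / t) ^ t * Real.exp t := by gcongr
      _ = (Real.exp 1 * (M * q) / t) ^ t := by
        rw [← Real.exp_one_pow, ← mul_pow]
        congr 1
        ring
  have hbase : Real.exp 1 * (M * q) / t ≤ Real.exp (-(7 / 16 * L)) := by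
    have h1 : Real.exp 1 * (M * q) / t ≤ Real.exp 1 * (M * q) / (μ / 41) := by
      gcongr
    have h2 : Real.exp 1 * (M * q) / (μ / 41) = 164 * Real.exp 1 * (Real.exp (L / 2) / b) := by
      rw [hμ, hq, hsq]
      field_simp
      ring
    have h3 : Real.exp (L / 2) / b ≤ Real.exp (L / 2) / Real.exp (L * (31 / 32)) := by
      gcongr
    have h4 : Real.exp (L / 2) / Real.exp (L * (31 / 32)) = Real.exp (-(15 / 32 * L)) := by
      rw [← Real.exp_sub]
      congr 1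
      ring
    have h5 : 164 * Real.exp 1 ≤ Real.exp (L / 32) := by
      have h6 := Real.exp_one_lt_d9
      have h7 := Real.add_one_le_exp (L / 32)
      linarith
    have h6 : Real.exp (L / 32) * Real.exp (-(15 / 32 * L)) = Real.exp (-(7 / 16 * L)) := by
      rw [← Real.exp_add]
      congr 1
      ring
    rw [h4] at h3
    calc _ ≤ _ := h1
      _ = _ := h2
      _ ≤ Real.exp (L / 32) * Real.exp (-(15 / 32 * L)) := by gcongr
      _ = _ := h6
  have hpow : (Real.exp 1 * (M * q) / t) ^ t ≤ Real.exp (-(7 / 16 * L * t)) := by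
    calc _ ≤ Real.exp (-(7 / 16 * L)) ^ t := by gcongr
      _ = _ := by
        rw [← Real.exp_nat_mul]
        congr 1
        ring
  have h2e : (2 : ℝ) ≤ Real.exp 1 := by
    have := Real.add_one_le_exp (1 : ℝ)
    linarith
  calc 2 * (Real.exp (72 * μ) * ((M.choose t : ℝ) * q ^ t))
      ≤ Real.exp 1 * (Real.exp (72 * μ) * Real.exp (-(7 / 16 * L * t))) := by
        gcongr
        exact hch.trans hpow
    _ = Real.exp (1 + (72 * μ + -(7 / 16 * L * t))) := by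
        rw [← Real.exp_add, ← Real.exp_add]
    _ ≤ _ := by
        rw [Real.exp_le_exp]
        have h1 : L * (μ / 41) ≤ L * t := mul_le_mul_of_nonneg_left ht1 (by linarith)
        have h3 : 20000 * μ ≤ L * μ := mul_le_mul_of_nonneg_right hL hμ0.le
        nlinarith

theorem e1n : E1NStmt := by
  intro m hm
  have h1 : ∀ᶠ n : ℕ in atTop, 20000 ≤ Real.log n :=
    (Real.tendsto_log_atTop.comp tendsto_natCast_atTop_atTop).eventually_ge_atTop 20000
  obtain ⟨N, hN⟩ := eventually_atTop.1 h1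
  refine ⟨N, ?_⟩
  intro n hn b M t _ hb hM _ ht
  exact e1n_aux n b M t m hm (hN n hn) hb hM ht

end Pool.Agent.Helper49.FS
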